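import Mathlib

set_option autoImplicit false
open Finset

namespace Pool.Agent.Results.MP_c0ff68_co.Upper

/-- Wins P b U X: U is the set of unclaimed elements and X the set claimed by the opponent
(Avoider or Maker); b says that the player (Forcer or Breaker) is to move. The player can
guarantee that the final set of the opponent satisfies P. -/
inductive Wins {n : ℕ} (P : Finset (Fin n) → Prop) : Bool → Finset (Fin n) → Finset (Fin n) → Prop
  | done (b : Bool) (X : Finset (Fin n)) : P X → Wins P b ∅ X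
  | opp (U X : Finset (Fin n)) : U.Nonempty → (∀ v ∈ U, Wins P true (U.erase v) (insert v X)) →
      Wins P false U X
  | me (U X : Finset (Fin n)) (v : Fin n) : v ∈ U → Wins P false (U.erase v) X → Wins P true U X

/-- The hypergraph F on the board Fin n has gap factor at least c. -/
def Gap {n : ℕ} (F : Finset (Finset (Fin n))) (c : ℝ) : Prop :=
  1 ≤ c ∧ (∀ A ∈ F, A.Nonempty) ∧ (∀ b, Wins (fun X => ∃ A ∈ F, A ⊆ X) b univ ∅) ∧
    ∀ b, Wins (fun M => ∀ A ∈ F, ((M ∩ A).card : ℝ) ≤ A.card / c) b univ ∅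

theorem key {n : ℕ} {P : Finset (Fin n) → Prop} (A : Finset (Fin n)) {b : Bool}
    {U X : Finset (Fin n)} (h : Wins P b U X) : Disjoint U X →
    ∃ Y, P Y ∧ 2 * (X ∩ A).card + (U ∩ A).card ≤ 2 * (Y ∩ A).card + b.toNat := by
  induction h with
  | done b X h => exact fun _ => ⟨X, h, by simp⟩
  | opp U X hU _ ih =>
    intro hd
    have hd' : ∀ v, Disjoint (U.erase v) (insert v X) := fun v => by
      rw [disjoint_insert_right]; exact ⟨by simp, hd.mono_left (erase_subset _ _)⟩
    rcases (U ∩ A).eq_empty_or_nonempty with h0 | ⟨v, hv⟩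
    · obtain ⟨v, hv⟩ := hU
      obtain ⟨Y, h1, h2⟩ := ih v hv (hd' v)
      have := card_le_card (inter_subset_inter_right (u := A) (subset_insert v X))
      exact ⟨Y, h1, by simp only [h0, card_empty, Bool.toNat] at *; grind⟩
    · rw [mem_inter] at hv
      obtain ⟨Y, h1, h2⟩ := ih v hv.1 (hd' v)
      rw [insert_inter_of_mem hv.2, card_insert_of_notMem (by
        simp [disjoint_left.mp hd hv.1]), erase_inter, card_erase_of_mem (mem_inter.mpr hv)] at h2
      have := card_pos.mpr ⟨v, mem_inter.mpr hv⟩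
      exact ⟨Y, h1, by simp only [Bool.toNat] at *; grind⟩
  | me U X v hv _ ih =>
    intro hd
    obtain ⟨Y, h1, h2⟩ := ih (hd.mono_left (erase_subset _ _))
    rw [erase_inter] at h2
    have := pred_card_le_card_erase (s := U ∩ A) (a := v)
    exact ⟨Y, h1, by simp only [Bool.toNat] at *; grind⟩

theorem result : ∀ (n : ℕ) (F : Finset (Finset (Fin n))) (c : ℝ), Gap F c → c ≤ 2 := by
  rintro n F c ⟨h1, h2, h3, h4⟩
  obtain ⟨_, ⟨A, hA, _⟩, _⟩ := key ∅ (h3 false) (by simp)
  obtain ⟨Y, h5, h6⟩ := key A (h4 false) (by simp)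
  have h7 := h5 A hA
  have h8 : (A.card : ℝ) ≤ 2 * (Y ∩ A).card := by exact_mod_cast (by simpa using h6)
  have h9 : (0 : ℝ) < A.card := by exact_mod_cast (h2 A hA).card_pos
  rw [le_div_iff₀ (by linarith)] at h7
  nlinarith

end Pool.Agent.Results.MP_c0ff68_co.Upper
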